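import Mathlib
import Pool.Agent.Helper71.SDX.Defs
import Pool.Agent.Helper71.SDX.Pd

/-!
# Scaling of the factorisation and the features of the localiser
-/

set_option autoImplicit false

open scoped BigOperators Matrix

namespace SDX

open scoped MatrixOrder in
theorem h25.exists_sq {σ : Type} [Fintype σ] [DecidableEq σ] {A : Matrix σ σ ℝ} (hA : A.PosSemidef) :
    ∃ B : Matrix σ σ ℝ, A = Bᴴ * B := by
  refine ⟨CFC.sqrt A, ?_⟩
  have h0 : (0 : Matrix σ σ ℝ) ≤ A := hA.nonneg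
  have h1 : (CFC.sqrt A)ᴴ = CFC.sqrt A := (Matrix.nonneg_iff_posSemidef.1 (CFC.sqrt_nonneg A)).isHermitian
  rw [h1, CFC.sqrt_mul_sqrt_self A h0]

theorem scale {σ 𝒮 : Type} [Fintype σ] [DecidableEq σ] [Fintype 𝒮] [Nonempty 𝒮]
    (W : 𝒮 → Matrix σ σ ℝ) (hW : ∀ S, (W S).PosSemidef) (ξ : ℝ) (hξ : 0 < ξ) :
    ∃ B C : Matrix σ σ ℝ, B * C = 1 ∧ C * B = 1 ∧
      Bᵀ * B = (1 / Fintype.card 𝒮 : ℝ) • ∑ S, W S + ξ • 1 ∧
      ∀ v : σ → ℝ, ∑ S, v ⬝ᵥ (Cᵀ * W S * C) *ᵥ v ≤ Fintype.card 𝒮 * (v ⬝ᵥ v) := by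
  classical
  have hc : (0 : ℝ) < Fintype.card 𝒮 := by exact_mod_cast Fintype.card_pos
  have h1 : ((1 / Fintype.card 𝒮 : ℝ) • ∑ S, W S).PosSemidef := by
    refine Matrix.PosSemidef.smul ?_ (by positivity)
    exact Matrix.posSemidef_sum _ fun S _ => hW S
  have h2 : (ξ • (1 : Matrix σ σ ℝ)).PosDef := Matrix.PosDef.one.smul hξ
  have h3 : ((1 / Fintype.card 𝒮 : ℝ) • ∑ S, W S + ξ • (1 : Matrix σ σ ℝ)).PosDef :=
    Matrix.PosDef.posSemidef_add h1 h2
  obtain ⟨B, hB⟩ : ∃ B : Matrix σ σ ℝ, ((1 / Fintype.card 𝒮 : ℝ) • ∑ S, W S + ξ • (1 : Matrix σ σ ℝ)) = Bᴴ * B :=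
    h25.exists_sq h3.posSemidef
  rw [Matrix.conjTranspose_eq_transpose_of_trivial] at hB
  have hu : IsUnit B := by
    have h4 : IsUnit (Bᵀ * B) := by
      rw [← hB]; exact h3.isUnit
    have h5 : IsUnit (Bᵀ * B).det := (Matrix.isUnit_iff_isUnit_det _).1 h4
    rw [Matrix.det_mul] at h5
    exact (Matrix.isUnit_iff_isUnit_det _).2 (isUnit_of_mul_isUnit_right h5)
  obtain ⟨u, rfl⟩ := hu
  obtain ⟨C, hC⟩ : ∃ C : Matrix σ σ ℝ, C = ((u⁻¹ : (Matrix σ σ ℝ)ˣ) : Matrix σ σ ℝ) := ⟨_, rfl⟩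
  have hBC : (u : Matrix σ σ ℝ) * C = 1 := by
    rw [hC]; exact u.mul_inv
  have hCB : C * (u : Matrix σ σ ℝ) = 1 := by
    rw [hC]; exact u.inv_mul
  refine ⟨u, C, hBC, hCB, hB.symm, ?_⟩
  intro v
  have e1 : ∀ S, v ⬝ᵥ (Cᵀ * W S * C) *ᵥ v = (C *ᵥ v) ⬝ᵥ (W S) *ᵥ (C *ᵥ v) := by
    intro S
    rw [← Matrix.mulVec_mulVec, ← Matrix.mulVec_mulVec, Matrix.dotProduct_mulVec, Matrix.vecMul_transpose]
  set w := C *ᵥ v with hw
  have e2 : ∑ S, v ⬝ᵥ (Cᵀ * W S * C) *ᵥ v = w ⬝ᵥ (∑ S, W S) *ᵥ w := by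
    rw [Finset.sum_congr rfl fun S _ => e1 S, Matrix.sum_mulVec, dotProduct_sum]
  have e3 : (∑ S, W S) = (Fintype.card 𝒮 : ℝ) • ((u : Matrix σ σ ℝ)ᵀ * (u : Matrix σ σ ℝ) - ξ • 1) := by
    rw [← hB, add_sub_cancel_right, smul_smul, mul_one_div_cancel hc.ne', one_smul]
  have e4 : w ⬝ᵥ ((u : Matrix σ σ ℝ)ᵀ * (u : Matrix σ σ ℝ)) *ᵥ w = v ⬝ᵥ v := by
    rw [← Matrix.mulVec_mulVec, Matrix.dotProduct_mulVec, Matrix.vecMul_transpose, hw, Matrix.mulVec_mulVec, hBC,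
      Matrix.one_mulVec]
  rw [e2, e3, Matrix.smul_mulVec, dotProduct_smul, Matrix.sub_mulVec, dotProduct_sub, e4, Matrix.smul_mulVec,
    Matrix.one_mulVec, dotProduct_smul, smul_eq_mul, smul_eq_mul]
  have h6 : 0 ≤ w ⬝ᵥ w := by
    rw [dotProduct]
    exact Finset.sum_nonneg fun i _ => mul_self_nonneg _
  have h7 : v ⬝ᵥ v - ξ * (w ⬝ᵥ w) ≤ v ⬝ᵥ v := by nlinarith
  exact mul_le_mul_of_nonneg_left h7 hc.le

namespace h25

/-- the number of subsets of size at most `q` -/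
theorem card_small {α : Type} [Fintype α] [DecidableEq α] (q : ℕ) :
    Fintype.card {s : Finset α // s.card ≤ q} ≤ (Fintype.card α + 1) ^ q := by
  classical
  have hs : Function.Surjective (fun f : Fin q → Option α =>
      (⟨(Finset.univ.image f).eraseNone, by
        have h1 : (Finset.univ.image f).eraseNone.card ≤ (Finset.univ.image f).card := by
          rw [← Finset.card_map Function.Embedding.some]
          refine Finset.card_le_card ?_
          rw [Finset.map_some_eraseNone]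
          exact Finset.erase_subset _ _
        exact h1.trans (Finset.card_image_le.trans (by simp))⟩ : {s : Finset α // s.card ≤ q})) := by
    rintro ⟨s, hs⟩
    obtain ⟨e⟩ : Nonempty (s ≃ Fin s.card) := ⟨s.equivFin⟩
    refine ⟨fun i => if h : (i : ℕ) < s.card then some (e.symm ⟨i, h⟩ : α) else none, ?_⟩
    apply Subtype.ext
    ext a
    simp only [Finset.mem_eraseNone, Finset.mem_image, Finset.mem_univ, true_and]
    constructor
    · rintro ⟨i, hi⟩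
      split_ifs at hi with h
      · rw [← Option.some.inj hi]
        exact (e.symm ⟨i, h⟩).2
    · intro ha
      refine ⟨⟨e ⟨a, ha⟩, (e ⟨a, ha⟩).2.trans_le hs⟩, ?_⟩
      have h : ((e ⟨a, ha⟩ : Fin s.card) : ℕ) < s.card := (e ⟨a, ha⟩).2
      rw [dif_pos h]
      congr 1
      have : (⟨((e ⟨a, ha⟩ : Fin s.card) : ℕ), h⟩ : Fin s.card) = e ⟨a, ha⟩ := rfl
      rw [this, e.symm_apply_apply]
  have := Fintype.card_le_of_surjective _ hs
  simpa [Fintype.card_option] using this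

end h25

theorem card_Ft (m b q : ℕ) : Fintype.card (Ft m b q) ≤ (m * b + 1) ^ q := by
  have h := h25.card_small (α := Fin m × Fin b) q
  simpa [Fintype.card_prod, Fintype.card_fin] using h

theorem features {m b q : ℕ} (g : (Fin m → Bool) → ℝ) (hg : g ∈ Deg (Fin m) q) :
    ∃ w : (Fin m → Fin b) → Ft m b q → ℝ,
      ∀ S x, ∑ α, w S α * chr α.1 x = g (rs S x) := by
  classical
  have key : ∀ S : Fin m → Fin b, ∃ w : Ft m b q → ℝ, ∀ x, ∑ α, w α * chr α.1 x = g (rs S x) := by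
    intro S
    induction hg using Submodule.span_induction with
    | mem f hf =>
      obtain ⟨β, hβ, rfl⟩ := hf
      let e : Fin m ↪ Fin m × Fin b := ⟨fun i => (i, S i), fun i j h => congrArg Prod.fst h⟩
      refine ⟨Pi.single ⟨β.map e, by rwa [Finset.card_map]⟩ 1, fun x => ?_⟩
      rw [Finset.sum_eq_single ⟨β.map e, by rwa [Finset.card_map]⟩]
      · rw [Pi.single_eq_same, one_mul, chr, chr, Finset.prod_map]
        rfl
      · intro α _ hα
        rw [Pi.single_eq_of_ne hα, zero_mul]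
      · intro h
        exact absurd (Finset.mem_univ _) h
    | zero => exact ⟨0, fun x => by simp⟩
    | add f₁ f₂ _ _ h₁ h₂ =>
      obtain ⟨w₁, h₁⟩ := h₁
      obtain ⟨w₂, h₂⟩ := h₂
      refine ⟨w₁ + w₂, fun x => ?_⟩
      simp only [Pi.add_apply, add_mul, Finset.sum_add_distrib, h₁, h₂]
    | smul a f _ h =>
      obtain ⟨w, h⟩ := h
      refine ⟨a • w, fun x => ?_⟩
      simp only [Pi.smul_apply, smul_eq_mul, mul_assoc, ← Finset.mul_sum, h]
  choose w hw using key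
  exact ⟨w, hw⟩

end SDX
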